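import Pool.Agent.Lib.MP_b5021c_nt.IfaceAM
import Pool.Agent.Lib.MP_b5021c_nt.E.H07.Mxu
import Pool.Agent.Lib.MP_b5021c_nt.B.H59.CstA

/-!
# MP_b5021c_nt, stage 3, row AM_FNF: drop two, the normal form (PaperAM.md)

The pattern is that of helper52's proof of the row AM_NF.
-/

set_option linter.unusedSectionVars false

namespace Pool.Agent.B5.H44

open Pool.Agent.B5

section

variable {O : Type} [CommRing O] [IsDomain O] [IsPrincipalIdealRing O] [Coef O] {P : Type}
  [Fintype P] [DecidableEq P] {L : Type} [AddCommGroup L] [Module.Free ℤ L] [Module.Finite ℤ L]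
  {phi : L →+ (P → ℤ)} {D : AO O L} {eta : L → (RO O)ˣ} {Z : Fin 4 → L}
  {dl : Fin 4 → Fin 4 → L →+ ℤ}

theorem third (i j : Fin 4) : ∃ k, k ≠ i ∧ k ≠ j := by
  revert i j
  decide

theorem fou_ray (hC : Fou phi D eta Z dl) (i : Fin 4) : Ray D (Z i) := by
  obtain ⟨k, hk, -⟩ := third i i
  exact (hC.mtl i k hk.symm).r0

open Classical in
/-- The value of `dl i j` on a ray. -/
theorem fou_val (hC : Fou phi D eta Z dl) (i j : Fin 4) (R : L) (hR : Ray D R) :
    dl i j R = (if R = Z i then 1 else 0) - (if R = Z j then 1 else 0) := by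
  by_cases hij : i = j
  · subst hij
    rw [hC.dia, sub_self]
    rfl
  · by_cases h1 : R = Z i
    · have h2 : R ≠ Z j := by
        rw [h1]
        exact fun h => hij (hC.inj h)
      rw [if_pos h1, if_neg h2, h1, hC.pos i j hij]
      rfl
    · by_cases h2 : R = Z j
      · rw [if_neg h1, if_pos h2, h2, hC.neg i j hij]
        rfl
      · rw [if_neg h1, if_neg h2, hC.oth i j R hR h1 h2]
        rfl

theorem fou_valZ (hC : Fou phi D eta Z dl) (i j k : Fin 4) :
    dl i j (Z k) = (if k = i then 1 else 0) - (if k = j then 1 else 0) := by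
  rw [fou_val hC i j _ (fou_ray hC k)]
  simp only [hC.inj.eq_iff]

/-- The value on a sum of the four rays. -/
theorem fou_sum (hC : Fou phi D eta Z dl) (i j : Fin 4) (T : Finset (Fin 4)) :
    dl i j (∑ m ∈ T, Z m) = (if i ∈ T then 1 else 0) - (if j ∈ T then 1 else 0) := by
  rw [map_sum]
  simp only [fou_valZ hC i j]
  rw [Finset.sum_sub_distrib, Finset.sum_ite_eq', Finset.sum_ite_eq']

/-- A port of a ray. -/
theorem exists_port (hD : DD phi D) {R : L} (hR : Ray D R) : ∃ p, phi R p = 1 := by
  by_contra hcon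
  push Not at hcon
  apply hR.2.1
  apply hD.inj
  rw [map_zero]
  funext i
  exact (hD.bin R hR.1 i).resolve_right (hcon i)

/-- Multiplicities of the four rays. -/
theorem mult4 (hD : DD phi D) (hC : Fou phi D eta Z dl) (x : L)
    (hx : x ∈ AddSubmonoid.closure {b | Ray D b}) :
    ∃ w : Fin 4 → ℤ, (∀ j, 0 ≤ w j) ∧ (∀ i j, dl i j x = w i - w j) ∧
      (∀ j p, w j * phi (Z j) p ≤ phi x p) := by
  classical
  induction hx using AddSubmonoid.closure_induction with
  | mem R hR =>
    have hR' : Ray D R := hR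
    refine ⟨fun j => if R = Z j then 1 else 0, fun j => ?_, fun i j => ?_, fun j p => ?_⟩
    · dsimp only
      split_ifs <;> omega
    · exact fou_val hC i j R hR'
    · dsimp only
      split_ifs with h
      · rw [one_mul, h]
      · rw [zero_mul]
        rcases hD.bin R hR'.1 p with h0 | h0 <;> omega
  | zero =>
    refine ⟨fun _ => 0, fun j => le_rfl, fun i j => ?_, fun j p => ?_⟩
    · rw [map_zero, sub_zero]
    · rw [map_zero, zero_mul]
      rfl
  | add x y _ _ hx hy =>
    obtain ⟨w, h1, h2, h3⟩ := hx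
    obtain ⟨w', h1', h2', h3'⟩ := hy
    refine ⟨fun j => w j + w' j, fun j => add_nonneg (h1 j) (h1' j), fun i j => ?_, fun j p => ?_⟩
    · rw [map_add, h2, h2']
      ring
    · rw [map_add, Pi.add_apply, add_mul]
      exact add_le_add (h3 j p) (h3' j p)

/-- The numbers `c j` of an exponent which is not killed by `dl i j`. -/
theorem numbers4 (hD : DD phi D) (hR : RaySpanS) (hTh : Thin (supp D))
    (hC : Fou phi D eta Z dl) {i j : Fin 4} {a : L} (ha : a ∈ supp D) (hmu : dl i j a ≠ 0) :
    ∃ c : Fin 4 → ℤ, (∀ m, c m = 0 ∨ c m = 1) ∧ (∀ m n, dl m n a = c m - c n) ∧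
      ∀ m p, c m = 1 → phi (Z m) p = 1 → phi a p = 1 := by
  have ha0 : a ≠ 0 := by
    rintro rfl
    exact hmu (map_zero _)
  obtain ⟨lam, hlam, -⟩ := hD.st.2
  obtain ⟨n, hn, hmem⟩ := (hR O L D ⟨lam, hlam⟩ hTh).1 a ha ha0
  obtain ⟨w, hw0, hw1, hw2⟩ := mult4 hD hC _ hmem
  have hn' : (0 : ℤ) < n := by exact_mod_cast hn
  have hmun : ∀ m m', (n : ℤ) * dl m m' a = w m - w m' := by
    intro m m'
    rw [← hw1 m m', map_nsmul, nsmul_eq_mul]
  have hphin : ∀ m p, w m * phi (Z m) p ≤ n * phi a p := by
    intro m p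
    have := hw2 m p
    rw [map_nsmul, Pi.smul_apply, nsmul_eq_mul] at this
    exact this
  have hwn : ∀ m, w m ≤ n := by
    intro m
    obtain ⟨p, hp⟩ := exists_port hD (fou_ray hC m)
    have h1 := hphin m p
    rw [hp, mul_one] at h1
    rcases hD.bin a ha p with h | h
    · rw [h, mul_zero] at h1
      linarith
    · rw [h, mul_one] at h1
      exact h1
  have hwi : w i = 0 ∨ w i = n := by
    have h1 := hmun i j
    have h2 := hw0 i
    have h3 := hw0 j
    have h4 := hwn i
    have h5 := hwn j
    rcases (hC.val i j a ha).resolve_left hmu with h | h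
    · rw [h, mul_one] at h1
      right; omega
    · rw [h] at h1
      left; omega
  have hwall : ∀ m, w m = 0 ∨ w m = n := by
    intro m
    have h1 := hmun m i
    have h2 := hw0 m
    have h4 := hwn m
    rcases hC.val m i a ha with h | h | h
    · rw [h, mul_zero] at h1
      rcases hwi with hj | hj
      · left; omega
      · right; omega
    · rw [h, mul_one] at h1
      rcases hwi with hj | hj
      · right; omega
      · omega
    · rw [h] at h1
      rcases hwi with hj | hj
      · omega
      · left; omega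
  refine ⟨fun m => if w m = n then 1 else 0, fun m => ?_, fun m m' => ?_, fun m p hj hp => ?_⟩
  · dsimp only
    split_ifs
    · exact Or.inr rfl
    · exact Or.inl rfl
  · dsimp only
    have h1 := hmun m m'
    rcases hwall m with h2 | h2 <;> rcases hwall m' with h3 | h3
    · rw [h2, h3, sub_zero] at h1
      rw [h2, h3, if_neg hn'.ne]
      rcases mul_eq_zero.mp h1 with h4 | h4
      · omega
      · rw [h4]; rfl
    · rw [h2, h3] at h1
      rw [h2, h3, if_neg hn'.ne, if_pos rfl]
      have h4 : (n : ℤ) * (dl m m' a + 1) = 0 := by linear_combination h1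
      rcases mul_eq_zero.mp h4 with h5 | h5
      · omega
      · omega
    · rw [h2, h3] at h1
      rw [h2, h3, if_neg hn'.ne, if_pos rfl]
      have h4 : (n : ℤ) * (dl m m' a - 1) = 0 := by linear_combination h1
      rcases mul_eq_zero.mp h4 with h5 | h5
      · omega
      · omega
    · rw [h2, h3, sub_self] at h1
      rw [h2, h3, if_pos rfl]
      rcases mul_eq_zero.mp h1 with h4 | h4
      · omega
      · rw [h4]; rfl
  · dsimp only at hj
    have hwj : w m = n := by
      by_contra h
      rw [if_neg h] at hj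
      omega
    have h1 := hphin m p
    rw [hwj, hp] at h1
    rcases hD.bin a ha p with h | h
    · rw [h] at h1
      omega
    · exact h

end

/-- Row AM_FNF. -/
theorem fnf_st (h1 : F1S) (hR : RaySpanS) (hE : E2S) (hT : TopS) : FnfS := by
  classical
  intro O _ _ _ _ P L _ _ _ _ _ phi D eta Z dl hfp h2 hC hv
  have hD := hfp.dd
  have hbZ : ∀ j, Bin phi (Z j) := fun j => hD.bin _ (fou_ray hC j).1
  have hZ0 : ∀ j, Z j ≠ 0 := fun j => (fou_ray hC j).2.1
  refine ⟨fun a ha => ?_, fun u T i j k hu hdu hi hj hk hki => ?_⟩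
  · by_cases hall : ∀ i j, dl i j a = 0
    · exact Or.inl hall
    right
    push Not at hall
    obtain ⟨i, j, hmu⟩ := hall
    have hTh := (hE O P L phi D hD h2).2.1
    obtain ⟨t, v, hrev, hport, htl⟩ := hT O P L phi D hD h2
    have hdt : ∀ m n, dl m n t = 0 := by
      intro m n
      obtain ⟨k, hk1, hk2⟩ := third m n
      have h3 : t ∈ US (eta (Z k)) (Z k) D :=
        H63.le_satur _ (htl (Z k) (eta (Z k)) (fou_ray hC k) (hv k))
      exact (hC.us k t).1 h3 m n hk1.symm hk2.symm
    have hpt : ∀ p, phi t p = 1 := fun p => hport p (hfp.fac p).1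
    have hb : t - a ∈ supp D := by
      change D.coeff (t - a) ≠ 0
      rw [hrev]
      intro h
      have h4 := (mul_eq_zero.mp h).resolve_left v.ne_zero
      exact ha (Pool.Agent.B5.H59.rsh_eq_zero.mp h4)
    have hbmu : ∀ m n, dl m n (t - a) = - dl m n a := by
      intro m n
      rw [map_sub, hdt, zero_sub]
    obtain ⟨c, hc1, hc2, hc3⟩ := numbers4 hD hR hTh hC ha hmu
    obtain ⟨d, hd1, hd2, hd3⟩ := numbers4 hD hR hTh hC hb (i := i) (j := j) (by
      rw [hbmu]
      exact neg_ne_zero.mpr hmu)
    have hcd : c i + d i = 1 := by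
      have h3 := hc2 i j
      have h4 := hd2 i j
      rw [hbmu, h3] at h4
      rw [h3] at hmu
      have h5 := hc1 i
      have h6 := hc1 j
      have h7 := hd1 i
      have h8 := hd1 j
      omega
    have hcd' : ∀ m, c m + d m = 1 := by
      intro m
      have h3 := hc2 m i
      have h4 := hd2 m i
      rw [hbmu, h3] at h4
      omega
    have hout : ∀ m p, c m = 0 → phi (Z m) p = 1 → phi a p = 0 := by
      intro m p hcm hp
      have h3 := hcd' m
      have h4 : d m = 1 := by omega
      have h5 := hd3 m p h4 hp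
      rw [map_sub, Pi.sub_apply, hpt] at h5
      omega
    set T : Finset (Fin 4) := Finset.univ.filter (fun m => c m = 1) with hTd
    have hmemT : ∀ m, m ∈ T ↔ c m = 1 := by
      intro m
      rw [hTd, Finset.mem_filter]
      exact ⟨fun h => h.2, fun h => ⟨Finset.mem_univ _, h⟩⟩
    have hcij : c i - c j ≠ 0 := by rw [← hc2 i j]; exact hmu
    refine ⟨T, a - ∑ m ∈ T, Z m, ?_, ?_, by abel, ?_, ?_⟩
    · intro hem
      have h3 : ∀ m, c m = 0 := fun m => (hc1 m).resolve_right (fun h => by
        have := (hmemT m).2 h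
        rw [hem] at this
        exact absurd this (Finset.notMem_empty m))
      exact hcij (by rw [h3 i, h3 j]; rfl)
    · intro huniv
      have h3 : ∀ m, c m = 1 := fun m => (hmemT m).1 (by rw [huniv]; exact Finset.mem_univ m)
      exact hcij (by rw [h3 i, h3 j]; rfl)
    · intro m p
      rcases hbZ m p with h | h
      · exact Or.inr h
      · left
        rw [map_sub, Pi.sub_apply, map_sum, Finset.sum_apply]
        have hz : ∀ m', m' ≠ m → phi (Z m') p = 0 := fun m' hm =>
          (hC.dis m' m hm p).resolve_right (by rw [h]; decide)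
        by_cases hmT : m ∈ T
        · rw [Finset.sum_eq_single m (fun m' _ hm => hz m' hm) (fun h5 => absurd hmT h5), h,
            hc3 m p ((hmemT m).1 hmT) h, sub_self]
        · rw [Finset.sum_eq_zero (fun m' hm => hz m' (fun h5 => hmT (h5 ▸ hm))),
            hout m p ((hc1 m).resolve_right (fun h5 => hmT ((hmemT m).2 h5))) h, sub_self]
    · intro m n
      rw [map_sub, fou_sum hC, hc2]
      have h3 : ∀ m, (if m ∈ T then (1 : ℤ) else 0) = c m := by
        intro m
        rcases hc1 m with h5 | h5
        · rw [if_neg (fun h6 => by rw [(hmemT _).1 h6] at h5; omega), h5]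
        · rw [if_pos ((hmemT _).2 h5), h5]
      rw [h3, h3, sub_self]
  · have hdT : dl j k (∑ m ∈ T, Z m + u) ≠ 0 := by
      rw [map_add, hdu, add_zero, fou_sum hC, if_pos hj, if_neg hk]
      decide
    have hji : j ≠ i := fun h => hi (h ▸ hj)
    have hout : ∑ m ∈ T, Z m + u ∉ US (eta (Z i)) (Z i) D := by
      rw [hC.us]
      exact fun h => hdT (h j k hji hki)
    have h5 := (h1 O P L phi D (Z i) (eta (Z i)) hD.inj hD.bin (hbZ i) (hZ0 i) _ hout).2 (by
      intro p
      rcases hbZ i p with h0 | h0
      · exact Or.inr h0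
      · left
        have h7 : phi u p = 0 := (hu i p).resolve_right (by rw [h0]; decide)
        rw [map_add, Pi.add_apply, map_sum, Finset.sum_apply, h7, add_zero]
        refine Finset.sum_eq_zero fun m hm => ?_
        exact (hC.dis m i (fun h8 => hi (h8 ▸ hm)) p).resolve_right (by rw [h0]; decide))
    have h6 : ∑ m ∈ insert i T, Z m + u = ∑ m ∈ T, Z m + u + Z i := by
      rw [Finset.sum_insert hi]
      abel
    rw [h6]
    exact h5

end Pool.Agent.B5.H44
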